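import Mathlib

/-!
Computable metric spaces, computable maps relative to a Turing degree and the degree of
topological categoricity of a Polish space: definitions.
-/

set_option autoImplicit false

namespace Pool.Agent.Helper339.TopCat

/-! ### Oracle machines -/

/-- Programs of oracle machines. -/
inductive OCode : Type
  | zero : OCode
  | succ : OCode
  | left : OCode
  | right : OCode
  | oracle : OCode
  | pair : OCode → OCode → OCode
  | comp : OCode → OCode → OCode
  | prec : OCode → OCode → OCode
  | rfind : OCode → OCode

/-- The partial function computed by a program with the oracle `g : ℕ → ℕ`. The program `oracle`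
asks the oracle; the other clauses are the usual ones for partial recursive functions. -/
def OCode.eval (g : ℕ → ℕ) : OCode → ℕ → Part ℕ
  | .zero => fun _ => Part.some 0
  | .succ => fun n => Part.some (n + 1)
  | .left => fun n => Part.some n.unpair.1
  | .right => fun n => Part.some n.unpair.2
  | .oracle => fun n => Part.some (g n)
  | .pair a b => fun n => (a.eval g n).bind fun x => (b.eval g n).map fun y => Nat.pair x y
  | .comp a b => fun n => (b.eval g n).bind fun x => a.eval g x
  | .prec a b => fun n =>
      Nat.rec (a.eval g n.unpair.1)
        (fun y IH => IH.bind fun i => b.eval g (Nat.pair n.unpair.1 (Nat.pair y i)))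
        n.unpair.2
  | .rfind a => fun n => Nat.rfind fun m => (a.eval g (Nat.pair n m)).map fun r => decide (r = 0)

/-- The join `g ⊕ p` of two oracles: even questions `2 n` are answered by `g n`, odd questions
`2 n + 1` by `p n`. -/
def join (g p : ℕ → ℕ) (n : ℕ) : ℕ := if n % 2 = 0 then g (n / 2) else p (n / 2)

open Classical in
/-- The characteristic function of a set of natural numbers. -/
noncomputable def chi (A : Set ℕ) (n : ℕ) : ℕ := if n ∈ A then 1 else 0

/-! ### Turing degrees -/

/-- `A` is Turing reducible to `B` (Mathlib's Turing reducibility of characteristic functions). -/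
def TLe (A B : Set ℕ) : Prop :=
  TuringReducible (fun n => Part.some (chi A n)) (fun n => Part.some (chi B n))

theorem TLe.refl (A : Set ℕ) : TLe A A := TuringReducible.refl _

theorem TLe.trans {A B C : Set ℕ} (h : TLe A B) (h' : TLe B C) : TLe A C :=
  TuringReducible.trans h h'

/-- Turing equivalence. -/
def turingSetoid : Setoid (Set ℕ) where
  r A B := TLe A B ∧ TLe B A
  iseqv := ⟨fun A => ⟨TLe.refl A, TLe.refl A⟩, fun h => ⟨h.2, h.1⟩,
    fun h h' => ⟨h.1.trans h'.1, h'.2.trans h.2⟩⟩

/-- Turing degrees: classes of sets of natural numbers modulo Turing equivalence. -/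
def Degree : Type := Quotient turingSetoid

/-- The Turing degree of a set. -/
def deg (A : Set ℕ) : Degree := Quotient.mk turingSetoid A

/-- The order of Turing degrees. -/
def Degree.le (a b : Degree) : Prop :=
  Quotient.liftOn₂ a b TLe fun _ _ _ _ h h' =>
    propext ⟨fun k => h.2.trans (k.trans h'.1), fun k => h.1.trans (k.trans h'.2)⟩

/-- A degree is c.e. if it contains a computably enumerable set. -/
def Degree.IsCE (a : Degree) : Prop := ∃ A : Set ℕ, REPred (fun n => n ∈ A) ∧ deg A = a

/-- The degree `𝟎` of the computable sets. -/
def Degree.zero : Degree := deg ∅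

/-! ### Computable metric spaces -/

/-- A computable metric space: a metric space with a dense sequence `pt 0, pt 1, ...` such that the
distances `dist (pt i) (pt j)` are computable reals, uniformly in `i, j`: computable functions
`a`, `b` give for all `i, j, k` a rational number `a / (b + 1)` within `2 ^ (-k)` of
`dist (pt i) (pt j)`. -/
structure CMS where
  /-- the points -/
  carrier : Type
  /-- the metric -/
  [metric : MetricSpace carrier]
  /-- the dense sequence -/
  pt : ℕ → carrier
  dense : DenseRange pt
  computable_dist : ∃ a b : ℕ × ℕ × ℕ → ℕ, Computable a ∧ Computable b ∧ ∀ i j k : ℕ,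
    |dist (pt i) (pt j) - (a (i, j, k) : ℝ) / ((b (i, j, k) : ℝ) + 1)| ≤ 1 / 2 ^ k

attribute [instance] CMS.metric

/-- The completion of a computable metric space. -/
abbrev CMS.bar (M : CMS) : Type := UniformSpace.Completion M.carrier

/-- `p` is a name of the point `x` of the completion: a fast Cauchy sequence of (indices of)
points of the dense sequence converging to `x`. -/
def IsName (M : CMS) (p : ℕ → ℕ) (x : M.bar) : Prop :=
  ∀ k : ℕ, dist ((M.pt (p k) : M.carrier) : M.bar) x ≤ 1 / 2 ^ k

/-- The oracle machine `c` with oracle `A` computes the map `f`: it transforms every name of a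
point `x` into a name of `f x`. -/
def Computes (M N : CMS) (A : Set ℕ) (c : OCode) (f : M.bar → N.bar) : Prop :=
  ∀ (x : M.bar) (p : ℕ → ℕ), IsName M p x →
    ∃ q : ℕ → ℕ, IsName N q (f x) ∧ ∀ n, q n ∈ c.eval (join (chi A) p) n

/-- The map `f` between completions is `a`-computable for the Turing degree `a`: some oracle
machine with an oracle in `a` computes it. -/
def DegreeComputable (M N : CMS) (a : Degree) (f : M.bar → N.bar) : Prop :=
  ∃ A : Set ℕ, deg A = a ∧ ∃ c : OCode, Computes M N A c f

/-- `X` is (homeomorphic to) a computable Polish space: `X` is homeomorphic to the completion of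
a computable metric space. -/
def IsComputablePolish (X : Type) [TopologicalSpace X] : Prop :=
  ∃ M : CMS, Nonempty (M.bar ≃ₜ X)

/-- `X` is `a`-categorical: if the completions of `M` and `N` are both homeomorphic to `X`, then
some homeomorphism between them is `a`-computable. -/
def Categorical (X : Type) [TopologicalSpace X] (a : Degree) : Prop :=
  ∀ M N : CMS, Nonempty (M.bar ≃ₜ X) → Nonempty (N.bar ≃ₜ X) →
    ∃ f : M.bar ≃ₜ N.bar, DegreeComputable M N a f

/-- `d` is the degree of topological categoricity of `X`. -/
def IsDegreeOfCategoricity (X : Type) [TopologicalSpace X] (d : Degree) : Prop :=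
  Categorical X d ∧ ∀ a : Degree, Categorical X a → d.le a

end Pool.Agent.Helper339.TopCat
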