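import Pool.Agent.Helper339.TopCat.Upper

set_option autoImplicit false

namespace Pool.Agent.Helper339.TopCat

open Classical UniformSpace

/-! ### the real numbers `δ n` -/

/-- the program `n` halts on input `0` within `s` steps -/
def hl (n s : ℕ) : Bool :=
  (Nat.Partrec.Code.evaln s (Denumerable.ofNat Nat.Partrec.Code n) 0).isSome

theorem mem_halt_iff (n : ℕ) : n ∈ Halt ↔ ∃ s, hl n s = true := by
  simp only [Halt, Set.mem_ofPred_eq, Part.dom_iff_mem, hl, Option.isSome_iff_exists]
  constructor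
  · rintro ⟨y, hy⟩
    obtain ⟨k, hk⟩ := Nat.Partrec.Code.evaln_complete.1 hy
    exact ⟨k, y, hk⟩
  · rintro ⟨k, y, hy⟩
    exact ⟨y, Nat.Partrec.Code.evaln_sound hy⟩

theorem computable_hl : Primrec₂ hl := by
  have h := Nat.Partrec.Code.primrec_evaln.comp
    (((Primrec.snd (α := ℕ) (β := ℕ)).pair ((Primrec.ofNat Nat.Partrec.Code).comp
      (Primrec.fst (α := ℕ) (β := ℕ)))).pair (Primrec.const 0))
  exact Primrec.option_isSome.comp h

/-- the summands of `δ n` -/
noncomputable def ds (n s : ℕ) : ℝ := if hl n s = true then (1 / 2) ^ (s + 1) else 0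

theorem ds_nonneg (n s : ℕ) : 0 ≤ ds n s := by
  unfold ds
  split_ifs <;> positivity

theorem ds_le (n s : ℕ) : ds n s ≤ (1 / 2) ^ (s + 1) := by
  unfold ds
  split_ifs
  · exact le_rfl
  · positivity

theorem geom_has (t : ℕ) : HasSum (fun s : ℕ => (1 / 2 : ℝ) ^ (s + t + 1)) (1 / 2 ^ t) := by
  have h := (hasSum_geometric_two' (1 / 2 ^ t : ℝ))
  have he : (fun s : ℕ => (1 / 2 : ℝ) ^ (s + t + 1)) = fun s => 1 / 2 ^ t / 2 / 2 ^ s := by
    funext s
    rw [one_div_pow, pow_succ, pow_add]
    field_simp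
  rw [he]
  exact h

theorem summable_ds (n : ℕ) : Summable (ds n) := by
  refine Summable.of_nonneg_of_le (ds_nonneg n) (ds_le n) ?_
  have := (geom_has 0).summable
  simpa using this

/-- `δ n` : a real number in `[0,1]`, positive iff `n` belongs to the halting set. -/
noncomputable def dl (n : ℕ) : ℝ := ∑' s, ds n s

/-- numerators of approximations -/
def An (n : ℕ) : ℕ → ℕ
  | 0 => 0
  | t + 1 => 2 * An n t + (hl n t).toNat

theorem An_sum (n t : ℕ) : (An n t : ℝ) / 2 ^ t = ∑ s ∈ Finset.range t, ds n s := by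
  induction t with
  | zero => simp [An]
  | succ t ih =>
    rw [Finset.sum_range_succ, ← ih, An, ds]
    cases h : hl n t with
    | false =>
      simp only [Bool.toNat_false, Nat.cast_mul, Nat.cast_ofNat, pow_succ,
        Bool.false_eq_true, if_false, add_zero]
      field_simp
    | true =>
      simp only [Bool.toNat_true, Nat.cast_add, Nat.cast_mul, Nat.cast_ofNat, pow_succ,
        if_true, Nat.cast_one, one_div, inv_pow]
      field_simp

theorem dl_approx (n t : ℕ) : |dl n - (An n t : ℝ) / 2 ^ t| ≤ 1 / 2 ^ t := by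
  have h1 := (summable_ds n).sum_add_tsum_nat_add t
  rw [An_sum, dl, ← h1, add_sub_cancel_left]
  have h2 : 0 ≤ ∑' i, ds n (i + t) := tsum_nonneg fun i => ds_nonneg n _
  rw [abs_of_nonneg h2]
  refine (Summable.tsum_le_tsum (fun i => ds_le n (i + t)) ((summable_nat_add_iff t).2
    (summable_ds n)) (geom_has t).summable).trans ?_
  rw [(geom_has t).tsum_eq]

theorem dl_nonneg (n : ℕ) : 0 ≤ dl n := tsum_nonneg (ds_nonneg n)

theorem dl_le_one (n : ℕ) : dl n ≤ 1 := by
  have h := dl_approx n 0
  simp only [An, Nat.cast_zero, pow_zero, div_one, sub_zero] at h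
  exact (le_abs_self _).trans h

theorem dl_pos_iff (n : ℕ) : dl n ≠ 0 ↔ n ∈ Halt := by
  rw [mem_halt_iff]
  constructor
  · intro h
    by_contra hc
    push Not at hc
    apply h
    unfold dl
    rw [tsum_congr (g := fun _ => (0 : ℝ)) fun s => ?_, tsum_zero]
    simp [ds, hc s]
  · rintro ⟨s, hs⟩
    have h1 : ds n s ≤ dl n := (summable_ds n).le_tsum s fun i _ => ds_nonneg n i
    have h2 : 0 < ds n s := by
      simp only [ds, hs, if_true]
      positivity
    exact (lt_of_lt_of_le h2 h1).ne'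

theorem computable_An : Primrec₂ An := by
  have h : Primrec₂ (fun (n : ℕ) (t : ℕ) =>
      (Nat.rec 0 (fun s v => 2 * v + (hl n s).toNat) t : ℕ)) := by
    have h1 : Primrec (fun w : ℕ × ℕ × ℕ => (hl w.1 w.2.1).toNat) := by
      have h2 : Primrec (fun w : ℕ × ℕ × ℕ => hl w.1 w.2.1) :=
        computable_hl.comp Primrec.fst (Primrec.fst.comp Primrec.snd)
      exact (Primrec.dom_finite Bool.toNat).comp h2
    have h3 : Primrec (fun w : ℕ × ℕ × ℕ => 2 * w.2.2 + (hl w.1 w.2.1).toNat) :=
      Primrec.nat_add.comp (Primrec.nat_mul.comp (Primrec.const 2)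
        (Primrec.snd.comp Primrec.snd)) h1
    have h4 : Primrec₂ (fun (n : ℕ) (w : ℕ × ℕ) => 2 * w.2 + (hl n w.1).toNat) := h3
    exact Primrec.nat_rec (f := fun _ : ℕ => 0) (Primrec.const 0) h4
  refine h.of_eq fun n t => ?_
  induction t with
  | zero => rfl
  | succ t ih => simp only [An, ← ih]

/-! ### the space of pairs -/

/-- the points: `w (2 n) = 2 n`, `w (2 n + 1) = 2 n + δ n`. -/
noncomputable def w (i : ℕ) : ℝ := 2 * ((i / 2 : ℕ) : ℝ) + ((i % 2 : ℕ) : ℝ) * dl (i / 2)

/-- numerators of approximations of the points -/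
def Wn (i t : ℕ) : ℕ := 2 * (i / 2) * 2 ^ t + (i % 2) * An (i / 2) t

theorem w_approx (i t : ℕ) : |w i - (Wn i t : ℝ) / 2 ^ t| ≤ 1 / 2 ^ t := by
  have h : w i - (Wn i t : ℝ) / 2 ^ t =
      ((i % 2 : ℕ) : ℝ) * (dl (i / 2) - (An (i / 2) t : ℝ) / 2 ^ t) := by
    unfold w Wn
    have : (2 : ℝ) ^ t ≠ 0 := by positivity
    push_cast
    field_simp
    ring
  rw [h, abs_mul]
  have h1 := dl_approx (i / 2) t
  rcases Nat.mod_two_eq_zero_or_one i with h2 | h2
  · rw [h2]
    simp
  · rw [h2]
    simpa using h1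

theorem computable_Wn : Primrec₂ Wn := by
  have hd : Primrec (fun z : ℕ × ℕ => z.1 / 2) :=
    Primrec.nat_div.comp Primrec.fst (Primrec.const 2)
  have hm : Primrec (fun z : ℕ × ℕ => z.1 % 2) :=
    Primrec.nat_mod.comp Primrec.fst (Primrec.const 2)
  exact Primrec.nat_add.comp
    (Primrec.nat_mul.comp (Primrec.nat_mul.comp (Primrec.const 2) hd)
      (primrec_pow.comp (Primrec.const 2) Primrec.snd))
    (Primrec.nat_mul.comp hm (computable_An.comp hd Primrec.snd))

theorem w_even (n : ℕ) : w (2 * n) = 2 * n := by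
  unfold w
  have h1 : 2 * n / 2 = n := by omega
  have h2 : 2 * n % 2 = 0 := by omega
  rw [h1, h2]
  simp

theorem w_odd (n : ℕ) : w (2 * n + 1) = 2 * n + dl n := by
  unfold w
  have h1 : (2 * n + 1) / 2 = n := by omega
  have h2 : (2 * n + 1) % 2 = 1 := by omega
  rw [h1, h2]
  simp

theorem closed_aux (e : ℕ → ℝ) (he : ∀ n, 0 ≤ e n ∧ e n ≤ 1) (s : Set ℝ)
    (hs : s ⊆ Set.range fun n : ℕ => 2 * (n : ℝ) + e n) : IsClosed s := by
  refine Metric.isClosed_of_pairwise_le_dist (ε := 1) one_pos ?_
  intro x hx y hy hxy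
  obtain ⟨n, rfl⟩ := hs hx
  obtain ⟨m, rfl⟩ := hs hy
  have hne : n ≠ m := fun h => hxy (by rw [h])
  simp only [Real.dist_eq]
  have h1 := he n
  have h2 := he m
  rcases Nat.lt_or_ge n m with h | h
  · have : (n : ℝ) + 1 ≤ m := by exact_mod_cast h
    rw [abs_of_nonpos (by linarith)]
    linarith
  · have h' : m < n := lt_of_le_of_ne h (Ne.symm hne)
    have : (m : ℝ) + 1 ≤ n := by exact_mod_cast h'
    rw [abs_of_nonneg (by linarith)]
    linarith

theorem closed_sub (s : Set ℝ) (hs : s ⊆ Set.range w) : IsClosed s := by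
  have h : s = (s ∩ Set.range fun n : ℕ => 2 * (n : ℝ) + (fun _ => 0) n) ∪
      (s ∩ Set.range fun n : ℕ => 2 * (n : ℝ) + dl n) := by
    ext x
    constructor
    · intro hx
      obtain ⟨i, hi⟩ := hs hx
      rcases Nat.even_or_odd' i with ⟨n, h | h⟩
      · left
        refine ⟨hx, n, ?_⟩
        rw [← hi, h, w_even]
        simp
      · right
        refine ⟨hx, n, ?_⟩
        rw [← hi, h, w_odd]
    · rintro (⟨h, _⟩ | ⟨h, _⟩) <;> exact h
  rw [h]
  refine (closed_aux (fun _ => 0) (fun _ => ⟨le_rfl, zero_le_one⟩) _ Set.inter_subset_right).union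
    (closed_aux dl (fun n => ⟨dl_nonneg n, dl_le_one n⟩) _ Set.inter_subset_right)

/-- The space of pairs: the points `2 n` and `2 n + δ n` of the real line. -/
noncomputable def pairSpace : CMS where
  carrier := Set.range w
  pt i := ⟨w i, i, rfl⟩
  dense := Function.Surjective.denseRange fun x => by
    obtain ⟨x, i, rfl⟩ := x
    exact ⟨i, rfl⟩
  computable_dist := by
    refine ⟨fun z => (Wn z.1 (z.2.2 + 1) - Wn z.2.1 (z.2.2 + 1)) +
      (Wn z.2.1 (z.2.2 + 1) - Wn z.1 (z.2.2 + 1)), fun z => 2 ^ (z.2.2 + 1) - 1, ?_, ?_, ?_⟩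
    · have h1 : Primrec (fun z : ℕ × ℕ × ℕ => Wn z.1 (z.2.2 + 1)) :=
        computable_Wn.comp Primrec.fst (Primrec.succ.comp (Primrec.snd.comp Primrec.snd))
      have h2 : Primrec (fun z : ℕ × ℕ × ℕ => Wn z.2.1 (z.2.2 + 1)) :=
        computable_Wn.comp (Primrec.fst.comp Primrec.snd)
          (Primrec.succ.comp (Primrec.snd.comp Primrec.snd))
      exact (Primrec.nat_add.comp (Primrec.nat_sub.comp h1 h2)
        (Primrec.nat_sub.comp h2 h1)).to_comp
    · exact (Primrec.nat_sub.comp (primrec_pow.comp (Primrec.const 2)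
        (Primrec.succ.comp (Primrec.snd.comp Primrec.snd))) (Primrec.const 1)).to_comp
    · intro i j k
      have hb : (((2 ^ (k + 1) - 1 : ℕ) : ℝ)) + 1 = 2 ^ (k + 1) := by
        have : 1 ≤ 2 ^ (k + 1) := Nat.one_le_two_pow
        push_cast [Nat.cast_sub this]
        ring
      have ha : (((Wn i (k + 1) - Wn j (k + 1)) + (Wn j (k + 1) - Wn i (k + 1)) : ℕ) : ℝ) =
          |(Wn i (k + 1) : ℝ) - Wn j (k + 1)| := by
        rcases le_total (Wn i (k + 1)) (Wn j (k + 1)) with h | h
        · rw [Nat.sub_eq_zero_of_le h, zero_add, Nat.cast_sub h, abs_sub_comm, abs_of_nonneg]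
          exact sub_nonneg.2 (by exact_mod_cast h)
        · rw [Nat.sub_eq_zero_of_le h, add_zero, Nat.cast_sub h, abs_of_nonneg]
          exact sub_nonneg.2 (by exact_mod_cast h)
      change |dist (w i) (w j) - _| ≤ _
      simp only
      rw [hb, ha, Real.dist_eq]
      have h1 := w_approx i (k + 1)
      have h2 := w_approx j (k + 1)
      have h3 : |(Wn i (k + 1) : ℝ) - Wn j (k + 1)| / 2 ^ (k + 1) =
          |(Wn i (k + 1) : ℝ) / 2 ^ (k + 1) - Wn j (k + 1) / 2 ^ (k + 1)| := by
        rw [← sub_div, abs_div, abs_of_pos (by positivity : (0 : ℝ) < 2 ^ (k + 1))]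
      rw [h3]
      refine (abs_abs_sub_abs_le_abs_sub _ _).trans ?_
      have h4 : w i - w j - ((Wn i (k + 1) : ℝ) / 2 ^ (k + 1) - Wn j (k + 1) / 2 ^ (k + 1)) =
          (w i - (Wn i (k + 1) : ℝ) / 2 ^ (k + 1)) -
            (w j - (Wn j (k + 1) : ℝ) / 2 ^ (k + 1)) := by ring
      rw [h4]
      refine (abs_sub _ _).trans ?_
      have h5 : (1 : ℝ) / 2 ^ k = 1 / 2 ^ (k + 1) + 1 / 2 ^ (k + 1) := by
        rw [pow_succ]
        field_simp
        norm_num
      rw [h5]
      exact add_le_add h1 h2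

theorem pairSpace_homeo : Nonempty (pairSpace.bar ≃ₜ ℕ) := by
  have hc : IsClosed (Set.range w) := closed_sub _ subset_rfl
  have : CompleteSpace (Set.range w) := hc.completeSpace_coe
  have hd : DiscreteTopology (Set.range w) := by
    rw [discreteTopology_iff_forall_isClosed]
    intro s
    have h1 : IsClosed (Subtype.val '' s) := closed_sub _ (by
      rintro x ⟨y, _, rfl⟩
      exact y.2)
    have h2 := h1.preimage (continuous_subtype_val (p := fun x => x ∈ Set.range w))
    rwa [Set.preimage_image_eq _ Subtype.val_injective] at h2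
  have hinf : Infinite (Set.range w) := by
    refine Infinite.of_injective (fun n : ℕ => (⟨w (2 * n), 2 * n, rfl⟩ : Set.range w)) ?_
    intro n m h
    have : w (2 * n) = w (2 * m) := congrArg Subtype.val h
    rw [w_even, w_even] at this
    have h3 : (n : ℝ) = m := by linarith
    exact_mod_cast h3
  have hcount : Countable (Set.range w) := (Set.countable_range w).to_subtype
  obtain ⟨e⟩ := nonempty_equiv_of_countable (α := Set.range w) (β := ℕ)
  let e' : Set.range w ≃ₜ ℕ :=
    { e with
      continuous_toFun := continuous_of_discreteTopology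
      continuous_invFun := continuous_of_discreteTopology }
  exact ⟨(Completion.UniformCompletion.completeEquivSelf (α := Set.range w)).toHomeomorph.trans e'⟩

/-- The standard presentation of the countable discrete space. -/
def stdSpace : CMS where
  carrier := ℕ
  pt := id
  dense := Function.surjective_id.denseRange
  computable_dist := by
    refine ⟨fun z => (z.1 - z.2.1) + (z.2.1 - z.1), fun _ => 0, ?_, Computable.const 0, ?_⟩
    · have h1 : Primrec (fun z : ℕ × ℕ × ℕ => z.1) := Primrec.fst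
      have h2 : Primrec (fun z : ℕ × ℕ × ℕ => z.2.1) := Primrec.fst.comp Primrec.snd
      exact (Primrec.nat_add.comp (Primrec.nat_sub.comp h1 h2)
        (Primrec.nat_sub.comp h2 h1)).to_comp
    · intro i j k
      have ha : (((i - j) + (j - i) : ℕ) : ℝ) = |(i : ℝ) - j| := by
        rcases le_total i j with h | h
        · rw [Nat.sub_eq_zero_of_le h, zero_add, Nat.cast_sub h, abs_sub_comm, abs_of_nonneg]
          exact sub_nonneg.2 (by exact_mod_cast h)
        · rw [Nat.sub_eq_zero_of_le h, add_zero, Nat.cast_sub h, abs_of_nonneg]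
          exact sub_nonneg.2 (by exact_mod_cast h)
      simp only [id]
      rw [ha, Nat.dist_eq]
      simp

theorem stdSpace_homeo : Nonempty (stdSpace.bar ≃ₜ ℕ) :=
  ⟨(Completion.UniformCompletion.completeEquivSelf (α := ℕ)).toHomeomorph⟩

theorem lower (A : Set ℕ) (c : OCode) (f : pairSpace.bar ≃ₜ stdSpace.bar)
    (hf : Computes pairSpace stdSpace A c f) : TLe Halt A := by
  have hname : ∀ i, IsName pairSpace (fun _ => i) (pairSpace.u i) := by
    intro i k
    change dist (pairSpace.u i) (pairSpace.u i) ≤ _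
    rw [dist_self]
    positivity
  choose q hq1 hq2 using fun i => hf (pairSpace.u i) (fun _ => i) (hname i)
  set val : ℕ → ℕ := fun i => q i 2 with hval
  have rval : RC (chi A) val := by
    have h1 := PR_const (chi A) c
    have h2 : RC (chi A) (fun i => Nat.pair i 2) :=
      RC.of_computable (Primrec₂.natPair.comp Primrec.id (Primrec.const 2)).to_comp
    refine (PR.comp h1 h2).of_eq fun i => ?_
    simp only [Nat.unpair_pair]
    exact Part.eq_some_iff.2 (hq2 i 2)
  have hdist : ∀ i, dist (stdSpace.u (val i)) (f (pairSpace.u i)) ≤ 1 / 2 ^ 2 := fun i => hq1 i 2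
  have hstd : ∀ a b : ℕ, dist (stdSpace.u a) (stdSpace.u b) < 1 → a = b := by
    intro a b h
    rw [stdSpace.dist_u] at h
    change dist (a : ℕ) b < 1 at h
    rw [Nat.dist_eq, abs_lt] at h
    have h1 : (a : ℝ) < b + 1 := by linarith [h.2]
    have h2 : (b : ℝ) < a + 1 := by linarith [h.1]
    have h3 : a < b + 1 := by exact_mod_cast h1
    have h4 : b < a + 1 := by exact_mod_cast h2
    omega
  have hfval : ∀ i, f (pairSpace.u i) = stdSpace.u (val i) := by
    intro i
    obtain ⟨m, hm⟩ := (stdSpace.nice stdSpace_homeo).surj (f (pairSpace.u i))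
    have h1 := hdist i
    rw [← hm] at h1
    have h2 := hstd (val i) m (lt_of_le_of_lt h1 (by norm_num))
    rw [← hm, h2]
  have hiff : ∀ i j, val i = val j ↔ w i = w j := by
    intro i j
    have h1 : w i = w j ↔ pairSpace.u i = pairSpace.u j := by
      rw [← dist_eq_zero, ← dist_eq_zero (x := pairSpace.u i), pairSpace.dist_u]
      rfl
    rw [h1, ← f.injective.eq_iff, hfval, hfval]
    constructor
    · intro h
      rw [h]
    · intro h
      apply hstd
      rw [h, dist_self]
      exact one_pos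
  have hchi : ∀ n, chi Halt n = if val (2 * n) = val (2 * n + 1) then 0 else 1 := by
    intro n
    have h1 : val (2 * n) = val (2 * n + 1) ↔ n ∉ Halt := by
      rw [hiff, w_even, w_odd, ← dl_pos_iff, not_not]
      constructor
      · intro h
        linarith
      · intro h
        rw [h, add_zero]
    unfold chi
    by_cases h : n ∈ Halt
    · rw [if_pos h, if_neg fun h' => h1.1 h' h]
    · rw [if_neg h, if_pos (h1.2 h)]
  have h1 : Computable₂ (fun a b : ℕ => if a = b then 0 else 1) := by
    have := (Primrec.ite (c := fun w : ℕ × ℕ => w.1 = w.2) Primrec.eq (Primrec.const 0)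
      (Primrec.const 1)).to_comp
    exact this
  have h2 : Computable (fun n : ℕ => 2 * n) :=
    (Primrec.nat_mul.comp (Primrec.const 2) Primrec.id).to_comp
  have h3 : RC (chi A) (chi Halt) := by
    refine Nat.RecursiveIn.of_eq (RC.comp₂ h1 (rval.comp (RC.of_computable h2))
      (rval.comp (RC.of_computable (Computable.succ.comp h2)))) fun n => ?_
    simp only [ofn, hchi]
  exact RecursiveIn.iff_nat.2 h3

end Pool.Agent.Helper339.TopCat
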