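import Pool.Agent.Helper339.TopCat.Defs

set_option autoImplicit false

namespace Pool.Agent.Helper339.TopCat

open Part

/-! ### relative computability of functions on `ℕ` -/

/-- the oracle as a partial function -/
def ofn (g : ℕ → ℕ) : ℕ →. ℕ := fun n => Part.some (g n)

/-- partial recursive in the total function `g`. -/
def PR (g : ℕ → ℕ) (F : ℕ →. ℕ) : Prop := Nat.RecursiveIn {ofn g} F

/-- computable in the total function `g`. -/
def RC (g : ℕ → ℕ) (f : ℕ → ℕ) : Prop := PR g (ofn f)

theorem PR.of_partrec {g : ℕ → ℕ} {F : ℕ →. ℕ} (h : Nat.Partrec F) : PR g F := h.recursiveIn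

theorem RC.of_computable {g f : ℕ → ℕ} (h : Computable f) : RC g f :=
  PR.of_partrec (Partrec.nat_iff.1 h)

theorem RC.oracle (g : ℕ → ℕ) : RC g g := Nat.RecursiveIn.oracle _ rfl

theorem PR.comp {g : ℕ → ℕ} {F : ℕ →. ℕ} {h : ℕ → ℕ} (hF : PR g F) (hh : RC g h) :
    PR g (fun n => F (h n)) :=
  (Nat.RecursiveIn.comp hF hh).of_eq fun _ => Part.bind_some _ _

theorem RC.comp {g f h : ℕ → ℕ} (hf : RC g f) (hh : RC g h) : RC g (fun n => f (h n)) :=
  PR.comp (F := ofn f) hf hh

theorem PR.pair {g : ℕ → ℕ} {F G : ℕ →. ℕ} (hF : PR g F) (hG : PR g G) :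
    PR g (fun n => (F n).bind fun x => (G n).map fun y => Nat.pair x y) := by
  refine (Nat.RecursiveIn.pair hF hG).of_eq fun n => ?_
  simp [Seq.seq, Part.bind_map]

theorem RC.pair {g f h : ℕ → ℕ} (hf : RC g f) (hh : RC g h) :
    RC g (fun n => Nat.pair (f n) (h n)) := by
  refine (PR.pair hf hh).of_eq fun n => ?_
  simp [ofn]

/-- composition with a computable function of two variables -/
theorem RC.comp₂ {g f h : ℕ → ℕ} {F : ℕ → ℕ → ℕ} (hF : Computable₂ F) (hf : RC g f)
    (hh : RC g h) : RC g (fun n => F (f n) (h n)) := by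
  have h1 : Computable (fun n : ℕ => F n.unpair.1 n.unpair.2) :=
    hF.comp (Computable.fst.comp Computable.unpair) (Computable.snd.comp Computable.unpair)
  have h2 := (RC.of_computable (g := g) h1).comp (hf.pair hh)
  simpa using h2

/-- primitive recursion without parameter -/
theorem RC.rec {g : ℕ → ℕ} {F : ℕ → ℕ → ℕ} {f : ℕ → ℕ} (hF : RC g (fun n => F n.unpair.1 n.unpair.2))
    (h0 : ∀ n, f (n + 1) = F n (f n)) : RC g f := by
  have hc : PR g (fun _ => Part.some (f 0)) :=
    PR.of_partrec (Partrec.nat_iff.1 (Partrec.const' (Part.some (f 0))))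
  have hr : PR g (fun n => Part.some n.unpair.2) :=
    Nat.RecursiveIn.right
  have hF' : RC g (fun n => F n.unpair.2.unpair.1 n.unpair.2.unpair.2) := RC.comp hF hr
  have h1 := Nat.RecursiveIn.prec hc hF'
  have h2 : ∀ n : ℕ, (Nat.rec (Part.some (f 0)) (fun y IH => IH.bind fun i =>
      Part.some (F y i)) n : Part ℕ) = Part.some (f n) := by
    intro n
    induction n with
    | zero => rfl
    | succ n ih =>
      change ((Nat.rec (Part.some (f 0)) (fun y IH => IH.bind fun i =>
        Part.some (F y i)) n : Part ℕ).bind fun i => Part.some (F n i)) = _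
      rw [ih, Part.bind_some, h0]
  have h3 : PR g (fun n => Part.some (f n.unpair.2)) := by
    refine h1.of_eq fun n => ?_
    refine Eq.trans ?_ (h2 _)
    simp only [ofn, Nat.unpair_pair, Part.bind_eq_bind]
  have hz : RC g (fun n => Nat.pair 0 n) :=
    RC.of_computable ((Primrec₂.natPair.comp (Primrec.const 0) Primrec.id).to_comp)
  refine (PR.comp h3 hz).of_eq fun n => ?_
  simp [ofn]

/-- total minimisation -/
theorem RC.find {g : ℕ → ℕ} {f : ℕ → ℕ} {test : ℕ → ℕ → ℕ}
    (ht : RC g (fun n => test n.unpair.1 n.unpair.2))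
    (h0 : ∀ n, test n (f n) = 0) (h1 : ∀ n m, m < f n → test n m ≠ 0) : RC g f := by
  refine (Nat.RecursiveIn.rfind ht).of_eq fun n => ?_
  refine Part.eq_some_iff.2 (Nat.mem_rfind.2 ⟨?_, fun {m} hm => ?_⟩)
  · simp [ofn, h0]
  · simp [ofn, h1 n m hm]

/-! ### programs -/

theorem code_of_partrec {F : ℕ →. ℕ} (h : Nat.Partrec F) :
    ∃ c : OCode, ∀ g n, c.eval g n = F n := by
  induction h with
  | zero => exact ⟨.zero, fun _ _ => rfl⟩
  | succ => exact ⟨.succ, fun _ _ => rfl⟩
  | left => exact ⟨.left, fun _ _ => rfl⟩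
  | right => exact ⟨.right, fun _ _ => rfl⟩
  | pair _ _ ih1 ih2 =>
    obtain ⟨a, ha⟩ := ih1; obtain ⟨b, hb⟩ := ih2
    refine ⟨.pair a b, fun g n => ?_⟩
    simp [OCode.eval, ha, hb, Seq.seq, Part.bind_map]
  | comp _ _ ih1 ih2 =>
    obtain ⟨a, ha⟩ := ih1; obtain ⟨b, hb⟩ := ih2
    refine ⟨.comp a b, fun g n => ?_⟩
    simp only [OCode.eval, ha, hb]
    rfl
  | prec _ _ ih1 ih2 =>
    obtain ⟨a, ha⟩ := ih1; obtain ⟨b, hb⟩ := ih2
    refine ⟨.prec a b, fun g n => ?_⟩
    simp only [OCode.eval, ha, hb]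
    rfl
  | rfind _ ih =>
    obtain ⟨a, ha⟩ := ih
    refine ⟨.rfind a, fun g n => ?_⟩
    simp only [OCode.eval, ha]
    rfl

theorem join_even (g p : ℕ → ℕ) (n : ℕ) : join g p (2 * n) = g n := by
  unfold join
  rw [if_pos (by omega)]
  congr 1
  omega

theorem join_odd (g p : ℕ → ℕ) (n : ℕ) : join g p (2 * n + 1) = p n := by
  unfold join
  rw [if_neg (by omega)]
  congr 1
  omega

theorem code_of_PR {k : ℕ → ℕ} {F : ℕ →. ℕ} (h : PR k F) :
    ∃ c : OCode, ∀ p n, c.eval (join k p) n = F n := by
  unfold PR at h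
  induction h with
  | zero => exact ⟨.zero, fun _ _ => rfl⟩
  | succ => exact ⟨.succ, fun _ _ => rfl⟩
  | left => exact ⟨.left, fun _ _ => rfl⟩
  | right => exact ⟨.right, fun _ _ => rfl⟩
  | oracle g hg =>
    rw [Set.mem_singleton_iff] at hg
    subst hg
    have hd : Nat.Partrec (fun n => Part.some (2 * n)) :=
      Partrec.nat_iff.1 ((Primrec.nat_mul.comp (Primrec.const 2) Primrec.id).to_comp)
    obtain ⟨d, hd⟩ := code_of_partrec hd
    refine ⟨.comp .oracle d, fun p n => ?_⟩
    simp [OCode.eval, hd, join_even, ofn]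
  | pair _ _ ih1 ih2 =>
    obtain ⟨a, ha⟩ := ih1; obtain ⟨b, hb⟩ := ih2
    refine ⟨.pair a b, fun g n => ?_⟩
    simp [OCode.eval, ha, hb, Seq.seq, Part.bind_map]
  | comp _ _ ih1 ih2 =>
    obtain ⟨a, ha⟩ := ih1; obtain ⟨b, hb⟩ := ih2
    refine ⟨.comp a b, fun g n => ?_⟩
    simp only [OCode.eval, ha, hb]
    rfl
  | prec _ _ ih1 ih2 =>
    obtain ⟨a, ha⟩ := ih1; obtain ⟨b, hb⟩ := ih2
    refine ⟨.prec a b, fun g n => ?_⟩
    simp only [OCode.eval, ha, hb]
    rfl
  | rfind _ ih =>
    obtain ⟨a, ha⟩ := ih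
    refine ⟨.rfind a, fun g n => ?_⟩
    simp only [OCode.eval, ha]
    rfl

/-- for the oracle `g ⊕ p` with `p` constant, the computation is recursive in `g`, uniformly in
the value of the constant. -/
theorem PR_const (g : ℕ → ℕ) (c : OCode) :
    PR g (fun z => c.eval (join g fun _ => z.unpair.1) z.unpair.2) := by
  have hl : RC g (fun n => n.unpair.1) :=
    RC.of_computable (Computable.fst.comp Computable.unpair)
  have hr : RC g (fun n => n.unpair.2) :=
    RC.of_computable (Computable.snd.comp Computable.unpair)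
  induction c with
  | zero => exact PR.of_partrec (Partrec.nat_iff.1 (Partrec.const' (Part.some 0)))
  | succ => exact (RC.of_computable Computable.succ).comp hr
  | left => exact hl.comp hr
  | right => exact hr.comp hr
  | oracle =>
    have h1 : RC g (fun z => g (z.unpair.2 / 2)) :=
      (RC.oracle g).comp (RC.comp₂ (F := fun a b => a / b) Primrec.nat_div.to_comp hr
        (RC.of_computable (Computable.const 2)))
    have h2 : RC g (fun z => (g (z.unpair.2 / 2)) * (1 - z.unpair.2 % 2)) :=
      RC.comp₂ (F := fun a b => a * b) Primrec.nat_mul.to_comp h1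
        (RC.comp₂ (F := fun a b => a - b) Primrec.nat_sub.to_comp
          (RC.of_computable (Computable.const 1))
          (RC.comp₂ (F := fun a b => a % b) Primrec.nat_mod.to_comp hr
            (RC.of_computable (Computable.const 2))))
    have h3 : RC g (fun z => z.unpair.1 * (z.unpair.2 % 2)) :=
      RC.comp₂ (F := fun a b => a * b) Primrec.nat_mul.to_comp hl
          (RC.comp₂ (F := fun a b => a % b) Primrec.nat_mod.to_comp hr
            (RC.of_computable (Computable.const 2)))
    have h4 := RC.comp₂ (F := fun a b => a + b) Primrec.nat_add.to_comp h2 h3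
    refine Nat.RecursiveIn.of_eq h4 fun z => ?_
    simp only [ofn, OCode.eval, join]
    rcases Nat.mod_two_eq_zero_or_one z.unpair.2 with h | h <;> simp [h]
  | pair a b iha ihb => exact PR.pair iha ihb
  | comp a b iha ihb =>
    have h1 := PR.pair hl ihb
    refine (Nat.RecursiveIn.comp iha h1).of_eq fun z => ?_
    simp only [OCode.eval, ofn, Part.bind_some, Part.bind_eq_bind, Part.bind_map, Nat.unpair_pair]
  | prec a b iha ihb =>
    -- base on `pair i x`, step on `pair (pair i x) (pair y j)`
    have hstep : RC g (fun w => Nat.pair w.unpair.1.unpair.1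
        (Nat.pair w.unpair.1.unpair.2 (Nat.pair w.unpair.2.unpair.1 w.unpair.2.unpair.2))) :=
      (hl.comp hl).pair ((hr.comp hl).pair ((hl.comp hr).pair (hr.comp hr)))
    have h1 := Nat.RecursiveIn.prec iha (PR.comp ihb hstep)
    have h2 : RC g (fun z => Nat.pair (Nat.pair z.unpair.1 z.unpair.2.unpair.1)
        z.unpair.2.unpair.2) := (hl.pair (hl.comp hr)).pair (hr.comp hr)
    refine (PR.comp h1 h2).of_eq fun z => ?_
    simp only [OCode.eval, Nat.unpair_pair, Part.bind_eq_bind]
  | rfind a ih =>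
    have h1 : RC g (fun w => Nat.pair w.unpair.1.unpair.1
        (Nat.pair w.unpair.1.unpair.2 w.unpair.2)) :=
      (hl.comp hl).pair ((hr.comp hl).pair hr)
    refine (Nat.RecursiveIn.rfind (PR.comp ih h1)).of_eq fun z => ?_
    simp only [OCode.eval, Nat.unpair_pair]
    rfl

/-! ### the halting set -/

/-- The halting set `K`: the programs halting on input `0`. -/
def Halt : Set ℕ := {e | ((Denumerable.ofNat Nat.Partrec.Code e).eval 0).Dom}

theorem halt_re : REPred (fun n => n ∈ Halt) := by
  have h := Nat.Partrec.Code.eval_part.comp (Computable.ofNat Nat.Partrec.Code)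
    (Computable.const 0)
  exact h.dom_re

theorem halt_not_computable : ¬ ComputablePred (fun n => n ∈ Halt) := by
  intro h
  apply ComputablePred.halting_problem 0
  obtain ⟨f, hf, he⟩ := ComputablePred.computable_iff.1 h
  refine ComputablePred.computable_iff.2 ⟨fun c => f (Encodable.encode c),
    hf.comp Computable.encode, ?_⟩
  funext c
  have := congrFun he (Encodable.encode c)
  rw [← this]
  simp [Halt]

theorem exists_reduction {P : ℕ → Prop} (hP : REPred P) :
    ∃ r : ℕ → ℕ, Computable r ∧ ∀ n, P n ↔ r n ∈ Halt := by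
  obtain ⟨c, hc⟩ := Nat.Partrec.Code.exists_code.1 (Partrec.nat_iff.1
    (show Partrec (fun n : ℕ => (Part.assert (P n) fun _ => Part.some ()).map fun _ => 0) from
      Partrec.map hP ((Computable.const 0).comp Computable.fst).to₂))
  refine ⟨fun n => Encodable.encode (Nat.Partrec.Code.comp c (Nat.Partrec.Code.const n)),
    Computable.encode.comp (Nat.Partrec.Code.primrec₂_comp.to_comp.comp (Computable.const c)
      Nat.Partrec.Code.primrec_const.to_comp), fun n => ?_⟩
  simp only [Halt, Set.mem_ofPred_eq, Denumerable.ofNat_encode, Nat.Partrec.Code.eval,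
    Nat.Partrec.Code.eval_const]
  simp [hc, Part.assert]

open Classical in
/-- c.e. predicates are decidable with the oracle `K`. -/
theorem RC_of_re {P : ℕ → Prop} (hP : REPred P) : RC (chi Halt) (fun n => if P n then 1 else 0) := by
  obtain ⟨r, hr, h⟩ := exists_reduction hP
  have := (RC.oracle (chi Halt)).comp (RC.of_computable hr)
  refine Nat.RecursiveIn.of_eq this fun n => ?_
  simp only [ofn, chi, h]

/-- existential quantifier over a computable relation -/
theorem re_exists {R : ℕ → ℕ → Bool} (hR : Computable₂ R) : REPred (fun n => ∃ m, R n m = true) := by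
  have h : Partrec fun n => Nat.rfind fun m => (Part.some (R n m) : Part Bool) :=
    Partrec.rfind hR.partrec₂
  refine h.dom_re.of_eq fun n => ?_
  refine Nat.rfind_dom'.trans ?_
  simp

end Pool.Agent.Helper339.TopCat
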