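import Pool.Agent.Helper339.TopCat.OC

set_option autoImplicit false

namespace Pool.Agent.Helper339.TopCat

open Classical UniformSpace

theorem primrec_pow : Primrec₂ ((· ^ ·) : ℕ → ℕ → ℕ) := Primrec₂.unpaired'.1 Nat.Primrec.pow

/-- the points of the dense sequence in the completion -/
def CMS.u (M : CMS) (i : ℕ) : M.bar := ((M.pt i : M.carrier) : M.bar)

theorem CMS.dist_u (M : CMS) (i j : ℕ) : dist (M.u i) (M.u j) = dist (M.pt i) (M.pt j) :=
  Completion.dist_eq _ _

theorem CMS.denseRange_u (M : CMS) : DenseRange M.u :=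
  Completion.denseRange_coe.comp M.dense (Completion.continuous_coe _)

/-- positivity of distances is c.e. -/
theorem CMS.re_pos (M : CMS) :
    REPred (fun n : ℕ => 0 < dist (M.u n.unpair.1) (M.u n.unpair.2)) := by
  obtain ⟨a, b, ha, hb, h⟩ := M.computable_dist
  have hR : Computable₂ (fun (n : ℕ) (k : ℕ) =>
      decide (b (n.unpair.1, n.unpair.2, k) + 1 < a (n.unpair.1, n.unpair.2, k) * 2 ^ k)) := by
    have h1 : Computable (fun w : ℕ × ℕ => (w.1.unpair.1, w.1.unpair.2, w.2)) :=
      ((Computable.fst.comp Computable.unpair).comp Computable.fst).pair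
        (((Computable.snd.comp Computable.unpair).comp Computable.fst).pair Computable.snd)
    have h2 : Computable (fun w : ℕ × ℕ => b (w.1.unpair.1, w.1.unpair.2, w.2) + 1) :=
      Computable.succ.comp (hb.comp h1)
    have hp : Computable (fun w : ℕ × ℕ => 2 ^ w.2) :=
      (primrec_pow.comp (Primrec.const 2) Primrec.snd).to_comp
    have h3 : Computable (fun w : ℕ × ℕ => a (w.1.unpair.1, w.1.unpair.2, w.2) * 2 ^ w.2) :=
      Primrec.nat_mul.to_comp.comp (ha.comp h1) hp
    exact (Primrec.nat_lt.decide.to_comp.comp h2 h3)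
  refine (re_exists hR).of_eq fun n => ?_
  simp only [decide_eq_true_eq]
  set i := n.unpair.1
  set j := n.unpair.2
  rw [M.dist_u]
  constructor
  · rintro ⟨k, hk⟩
    have h1 := h i j k
    have h2 : (0 : ℝ) < (b (i, j, k) : ℝ) + 1 := by positivity
    have h3 : (1 : ℝ) / 2 ^ k < (a (i, j, k) : ℝ) / ((b (i, j, k) : ℝ) + 1) := by
      rw [div_lt_div_iff₀ (by positivity) h2, one_mul]
      exact_mod_cast hk
    rw [abs_le] at h1
    linarith [h1.1]
  · intro hpos
    obtain ⟨k, hk⟩ := exists_pow_lt_of_lt_one (half_pos hpos) (by norm_num : (1 / 2 : ℝ) < 1)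
    refine ⟨k, ?_⟩
    have h1 := h i j k
    have h2 : (0 : ℝ) < (b (i, j, k) : ℝ) + 1 := by positivity
    have hk' : (1 : ℝ) / 2 ^ k < dist (M.pt i) (M.pt j) / 2 := by
      simpa [one_div, inv_pow] using hk
    have h3 : (1 : ℝ) / 2 ^ k < (a (i, j, k) : ℝ) / ((b (i, j, k) : ℝ) + 1) := by
      rw [abs_le] at h1
      linarith [h1.2]
    rw [div_lt_div_iff₀ (by positivity) h2, one_mul] at h3
    exact_mod_cast h3

/-- That there is another point of the dense sequence at distance less than `2 / 2 ^ k` is c.e. -/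
theorem CMS.re_near (M : CMS) :
    REPred (fun n : ℕ => ∃ j, 0 < dist (M.u n.unpair.1) (M.u j) ∧
      dist (M.u n.unpair.1) (M.u j) < 2 / 2 ^ n.unpair.2) := by
  obtain ⟨a, b, ha, hb, h⟩ := M.computable_dist
  have hR : Computable₂ (fun (n : ℕ) (m : ℕ) =>
      (decide (b (n.unpair.1, m.unpair.1, m.unpair.2) + 1 <
        a (n.unpair.1, m.unpair.1, m.unpair.2) * 2 ^ m.unpair.2) &&
      decide ((a (n.unpair.1, m.unpair.1, m.unpair.2) * 2 ^ m.unpair.2 +
        (b (n.unpair.1, m.unpair.1, m.unpair.2) + 1)) * 2 ^ n.unpair.2 <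
          2 * ((b (n.unpair.1, m.unpair.1, m.unpair.2) + 1) * 2 ^ m.unpair.2)))) := by
    have h1 : Computable (fun w : ℕ × ℕ => (w.1.unpair.1, w.2.unpair.1, w.2.unpair.2)) :=
      ((Computable.fst.comp Computable.unpair).comp Computable.fst).pair
        (((Computable.fst.comp Computable.unpair).comp Computable.snd).pair
          ((Computable.snd.comp Computable.unpair).comp Computable.snd))
    have h2 : Computable (fun w : ℕ × ℕ =>
        b (w.1.unpair.1, w.2.unpair.1, w.2.unpair.2) + 1) :=
      Computable.succ.comp (hb.comp h1)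
    have hp : Computable (fun w : ℕ × ℕ => 2 ^ w.2.unpair.2) :=
      (primrec_pow.comp (Primrec.const 2)
        (Primrec.snd.comp (Primrec.unpair.comp Primrec.snd))).to_comp
    have hp1 : Computable (fun w : ℕ × ℕ => 2 ^ w.1.unpair.2) :=
      (primrec_pow.comp (Primrec.const 2)
        (Primrec.snd.comp (Primrec.unpair.comp Primrec.fst))).to_comp
    have h3 : Computable (fun w : ℕ × ℕ =>
        a (w.1.unpair.1, w.2.unpair.1, w.2.unpair.2) * 2 ^ w.2.unpair.2) :=
      Primrec.nat_mul.to_comp.comp (ha.comp h1) hp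
    have h4 := Primrec.nat_lt.decide.to_comp.comp h2 h3
    have h5 := Primrec.nat_mul.to_comp.comp (Primrec.nat_add.to_comp.comp h3 h2) hp1
    have h6 := Primrec.nat_mul.to_comp.comp (Computable.const 2)
      (Primrec.nat_mul.to_comp.comp h2 hp)
    have h7 := Primrec.nat_lt.decide.to_comp.comp h5 h6
    exact Primrec.and.to_comp.comp h4 h7
  refine (re_exists hR).of_eq fun n => ?_
  simp only [Bool.and_eq_true, decide_eq_true_eq]
  set i := n.unpair.1
  set l := n.unpair.2
  constructor
  · rintro ⟨m, hm1, hm2⟩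
    refine ⟨m.unpair.1, ?_⟩
    rw [M.dist_u]
    set j := m.unpair.1
    set k := m.unpair.2
    have h1 := h i j k
    have h2 : (0 : ℝ) < (b (i, j, k) : ℝ) + 1 := by positivity
    have h3 : (1 : ℝ) / 2 ^ k < (a (i, j, k) : ℝ) / ((b (i, j, k) : ℝ) + 1) := by
      rw [div_lt_div_iff₀ (by positivity) h2, one_mul]
      exact_mod_cast hm1
    have h4 : (a (i, j, k) : ℝ) / ((b (i, j, k) : ℝ) + 1) + 1 / 2 ^ k < 2 / 2 ^ l := by
      rw [div_add_div _ _ h2.ne' (by positivity), div_lt_div_iff₀ (by positivity) (by positivity)]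
      have : ((a (i, j, k) * 2 ^ k + (b (i, j, k) + 1)) * 2 ^ l : ℝ) <
          2 * ((b (i, j, k) + 1) * 2 ^ k) := by exact_mod_cast hm2
      linarith
    rw [abs_le] at h1
    constructor <;> linarith [h1.1, h1.2]
  · rintro ⟨j, hj1, hj2⟩
    rw [M.dist_u] at hj1 hj2
    obtain ⟨k, hk⟩ := exists_pow_lt_of_lt_one (half_pos (lt_min hj1 (sub_pos.2 hj2)))
      (by norm_num : (1 / 2 : ℝ) < 1)
    refine ⟨Nat.pair j k, ?_⟩
    simp only [Nat.unpair_pair]
    have h1 := h i j k
    have h2 : (0 : ℝ) < (b (i, j, k) : ℝ) + 1 := by positivity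
    have hk' : (1 : ℝ) / 2 ^ k < min (dist (M.pt i) (M.pt j))
        (2 / 2 ^ l - dist (M.pt i) (M.pt j)) / 2 := by
      simpa [one_div, inv_pow] using hk
    have hk1 := min_le_left (dist (M.pt i) (M.pt j)) (2 / 2 ^ l - dist (M.pt i) (M.pt j))
    have hk2 := min_le_right (dist (M.pt i) (M.pt j)) (2 / 2 ^ l - dist (M.pt i) (M.pt j))
    rw [abs_le] at h1
    have h3 : (1 : ℝ) / 2 ^ k < (a (i, j, k) : ℝ) / ((b (i, j, k) : ℝ) + 1) := by
      linarith [h1.2]
    have h4 : (a (i, j, k) : ℝ) / ((b (i, j, k) : ℝ) + 1) + 1 / 2 ^ k < 2 / 2 ^ l := by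
      linarith [h1.1]
    rw [div_lt_div_iff₀ (by positivity) h2, one_mul] at h3
    rw [div_add_div _ _ h2.ne' (by positivity), div_lt_div_iff₀ (by positivity)
      (by positivity)] at h4
    refine ⟨by exact_mod_cast h3, ?_⟩
    have : ((a (i, j, k) * 2 ^ k + (b (i, j, k) + 1)) * 2 ^ l : ℝ) <
          2 * ((b (i, j, k) + 1) * 2 ^ k) := by linarith
    exact_mod_cast this

/-- least index of the point with index `i` -/
noncomputable def CMS.least (M : CMS) (i : ℕ) : ℕ :=
  Nat.find (⟨i, rfl⟩ : ∃ j, M.u j = M.u i)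

theorem CMS.u_least (M : CMS) (i : ℕ) : M.u (M.least i) = M.u i :=
  Nat.find_spec (⟨i, rfl⟩ : ∃ j, M.u j = M.u i)

theorem CMS.least_congr (M : CMS) {i j : ℕ} (h : M.u i = M.u j) : M.least i = M.least j := by
  unfold CMS.least
  congr 1
  rw [h]

theorem CMS.least_least (M : CMS) (i : ℕ) : M.least (M.least i) = M.least i :=
  M.least_congr (M.u_least i)

/-- `j` is a least index -/
def CMS.L (M : CMS) (j : ℕ) : Prop := M.least j = j

theorem CMS.rc_least (M : CMS) : RC (chi Halt) M.least := by
  have h := RC_of_re M.re_pos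
  refine RC.find (test := fun i j => if 0 < dist (M.u i) (M.u j) then 1 else 0) h ?_ ?_
  · intro i
    simp [M.u_least]
  · intro i m hm
    have := Nat.find_min (⟨i, rfl⟩ : ∃ j, M.u j = M.u i) hm
    simp only [dist_pos, ne_eq]
    rw [if_pos (Ne.symm this)]
    exact one_ne_zero

theorem CMS.rc_L (M : CMS) : RC (chi Halt) (fun j => if M.L j then 1 else 0) := by
  have h1 : Computable₂ (fun a b : ℕ => if a = b then 1 else 0) := by
    have := (Primrec.ite (c := fun w : ℕ × ℕ => w.1 = w.2) Primrec.eq (Primrec.const 1)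
      (Primrec.const 0)).to_comp
    exact this
  refine Nat.RecursiveIn.of_eq (RC.comp₂ h1 M.rc_least (RC.of_computable Computable.id))
    fun n => ?_
  simp only [ofn, CMS.L, id]
  congr

theorem CMS.rc_count (M : CMS) : RC (chi Halt) (fun n => Nat.count M.L n) := by
  refine RC.rec (F := fun y v => v + if M.L y then 1 else 0) ?_ fun n => ?_
  · exact RC.comp₂ (F := fun a b => a + b) Primrec.nat_add.to_comp
      (RC.of_computable (Computable.snd.comp Computable.unpair))
      (M.rc_L.comp (RC.of_computable (Computable.fst.comp Computable.unpair)))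
  · rw [Nat.count_succ]

/-- properties of a presentation of the countable discrete space -/
structure CMS.Nice (M : CMS) : Prop where
  disc : DiscreteTopology M.bar
  surj : Function.Surjective M.u
  inf : {j | M.L j}.Infinite

theorem CMS.nice (M : CMS) (h : Nonempty (M.bar ≃ₜ ℕ)) : M.Nice := by
  obtain ⟨e⟩ := h
  have hd : DiscreteTopology M.bar := e.isEmbedding.discreteTopology
  have hs : Function.Surjective M.u := denseRange_discrete.1 M.denseRange_u
  refine ⟨hd, hs, fun hf => ?_⟩
  have hi : Infinite M.bar := Infinite.of_injective e.symm e.symm.injective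
  refine Set.infinite_univ (α := M.bar) ((hf.image M.u).subset fun x _ => ?_)
  obtain ⟨i, rfl⟩ := hs x
  exact ⟨M.least i, M.least_least i, M.u_least i⟩

theorem CMS.rc_nth (M : CMS) (h : M.Nice) : RC (chi Halt) (fun n => Nat.nth M.L n) := by
  have h1 : Computable₂ (fun a b : ℕ => if a = b then 0 else 1) := by
    have := (Primrec.ite (c := fun w : ℕ × ℕ => w.1 = w.2) Primrec.eq (Primrec.const 0)
      (Primrec.const 1)).to_comp
    exact this
  have h2 : RC (chi Halt) (fun n => (1 - if M.L n.unpair.2 then 1 else 0) +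
      if Nat.count M.L n.unpair.2 = n.unpair.1 then 0 else 1) := by
    refine RC.comp₂ (F := fun a b => a + b) Primrec.nat_add.to_comp ?_ ?_
    · exact RC.comp₂ (F := fun a b => a - b) Primrec.nat_sub.to_comp
        (RC.of_computable (Computable.const 1))
        (M.rc_L.comp (RC.of_computable (Computable.snd.comp Computable.unpair)))
    · exact RC.comp₂ h1 (M.rc_count.comp (RC.of_computable (Computable.snd.comp Computable.unpair)))
        (RC.of_computable (Computable.fst.comp Computable.unpair))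
  refine RC.find (test := fun e t => (1 - if M.L t then 1 else 0) +
      if Nat.count M.L t = e then 0 else 1) h2 ?_ ?_
  · intro n
    rw [if_pos (Nat.nth_mem_of_infinite h.inf n), Nat.count_nth_of_infinite h.inf]
    simp
  · intro n m hm
    by_cases hL : M.L m
    · by_cases hc : Nat.count M.L m = n
      · exfalso
        have := Nat.nth_count hL
        rw [hc] at this
        omega
      · rw [if_neg hc]
        omega
    · rw [if_neg hL]
      omega

theorem upper (M N : CMS) (hM : Nonempty (M.bar ≃ₜ ℕ)) (hN : Nonempty (N.bar ≃ₜ ℕ)) :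
    ∃ f : M.bar ≃ₜ N.bar, ∃ c : OCode, Computes M N Halt c f := by
  have nM := M.nice hM
  have nN := N.nice hN
  have := nM.disc
  have := nN.disc
  -- the map on indices
  set T : ℕ → ℕ := fun i => Nat.nth N.L (Nat.count M.L (M.least i)) with hT
  have rT : RC (chi Halt) T := (N.rc_nth nN).comp (M.rc_count.comp M.rc_least)
  choose idx hidx using nM.surj
  have hTc : ∀ {i j : ℕ}, M.u i = M.u j → T i = T j := by
    intro i j h
    simp only [hT, M.least_congr h]
  set f : M.bar → N.bar := fun x => N.u (T (idx x)) with hf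
  have hfu : ∀ i, f (M.u i) = N.u (T i) := by
    intro i
    simp only [hf]
    rw [hTc (hidx (M.u i))]
  have hbij : Function.Bijective f := by
    constructor
    · intro x y hxy
      obtain ⟨i, rfl⟩ := nM.surj x
      obtain ⟨j, rfl⟩ := nM.surj y
      rw [hfu, hfu] at hxy
      have h1 : N.least (T i) = N.least (T j) := N.least_congr hxy
      have hLi : N.L (T i) := Nat.nth_mem_of_infinite nN.inf _
      have hLj : N.L (T j) := Nat.nth_mem_of_infinite nN.inf _
      rw [hLi, hLj] at h1
      have h2 := Nat.nth_injective nN.inf h1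
      have h3 := Nat.count_injective (p := M.L) (M.least_least i) (M.least_least j) h2
      rw [← M.u_least i, ← M.u_least j, h3]
    · intro y
      obtain ⟨t, rfl⟩ := nN.surj y
      set e := Nat.count N.L (N.least t) with he
      refine ⟨M.u (Nat.nth M.L e), ?_⟩
      rw [hfu]
      have h1 : M.least (Nat.nth M.L e) = Nat.nth M.L e := Nat.nth_mem_of_infinite nM.inf e
      have h2 : N.L (N.least t) := N.least_least t
      simp only [hT]
      rw [h1, Nat.count_nth_of_infinite nM.inf, he, Nat.nth_count h2, N.u_least]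
  let F : M.bar ≃ₜ N.bar :=
    { Equiv.ofBijective f hbij with
      continuous_toFun := continuous_of_discreteTopology
      continuous_invFun := continuous_of_discreteTopology }
  refine ⟨F, ?_⟩
  -- the machine
  have rP := RC_of_re M.re_near
  obtain ⟨cP, hcP⟩ := code_of_PR rP
  obtain ⟨cT, hcT⟩ := code_of_PR rT
  obtain ⟨co, hco⟩ := code_of_partrec (F := fun n => Part.some (2 * n + 1))
    (Partrec.nat_iff.1 ((Primrec.succ.comp
      (Primrec.nat_mul.comp (Primrec.const 2) Primrec.id)).to_comp))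
  set ctest : OCode := .comp cP (.pair (.comp .oracle (.comp co .right)) .right) with hct
  refine ⟨.comp cT (.comp .oracle (.comp co (.rfind ctest))), ?_⟩
  intro x p hp
  obtain ⟨i, rfl⟩ := nM.surj x
  have hp' : ∀ k, dist (M.u (p k)) (M.u i) ≤ 1 / 2 ^ k := hp
  -- the searched for `k`
  have hgood : ∀ k, (¬ ∃ j, 0 < dist (M.u (p k)) (M.u j) ∧
      dist (M.u (p k)) (M.u j) < 2 / 2 ^ k) → M.u (p k) = M.u i := by
    intro k hk
    by_contra hne
    apply hk
    refine ⟨i, dist_pos.2 hne, lt_of_le_of_lt (hp' k) ?_⟩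
    have : (0 : ℝ) < 1 / 2 ^ k := by positivity
    have h2 : (2 : ℝ) / 2 ^ k = 1 / 2 ^ k + 1 / 2 ^ k := by ring
    linarith
  have hex : ∃ k, ¬ ∃ j, 0 < dist (M.u (p k)) (M.u j) ∧
      dist (M.u (p k)) (M.u j) < 2 / 2 ^ k := by
    obtain ⟨r, hr, hball⟩ := Metric.isOpen_iff.1 (isOpen_discrete {M.u i}) (M.u i) rfl
    obtain ⟨k, hk⟩ := exists_pow_lt_of_lt_one (half_pos hr) (by norm_num : (1 / 2 : ℝ) < 1)
    have hk' : (1 : ℝ) / 2 ^ k < r / 2 := by simpa [one_div, inv_pow] using hk
    refine ⟨k, ?_⟩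
    have h1 : M.u (p k) = M.u i := by
      have : M.u (p k) ∈ Metric.ball (M.u i) r := by
        rw [Metric.mem_ball]
        exact lt_of_le_of_lt (hp' k) (by linarith)
      exact hball this
    rintro ⟨j, hj1, hj2⟩
    rw [h1] at hj1 hj2
    have : M.u j ∈ Metric.ball (M.u i) r := by
      rw [Metric.mem_ball, dist_comm]
      have h2 : (2 : ℝ) / 2 ^ k = 2 * (1 / 2 ^ k) := by ring
      linarith
    have := hball this
    rw [Set.mem_singleton_iff] at this
    rw [this, dist_self] at hj1
    exact lt_irrefl _ hj1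
  set k0 := Nat.find hex with hk0
  have hk0s := hgood k0 (Nat.find_spec hex)
  have htest : ∀ z : ℕ, ctest.eval (join (chi Halt) p) z =
      Part.some (if ∃ j, 0 < dist (M.u (p z.unpair.2)) (M.u j) ∧
        dist (M.u (p z.unpair.2)) (M.u j) < 2 / 2 ^ z.unpair.2 then 1 else 0) := by
    intro z
    simp only [hct, OCode.eval, hco, Part.bind_some, join_odd, Part.map_some, hcP, ofn,
      Nat.unpair_pair]
  have hrf : ∀ n, k0 ∈ (OCode.rfind ctest).eval (join (chi Halt) p) n := by
    intro n
    simp only [OCode.eval]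
    refine Nat.mem_rfind.2 ⟨?_, fun {m} hm => ?_⟩
    · simp only [htest, Nat.unpair_pair, Part.map_some, Part.mem_some_iff]
      rw [if_neg (Nat.find_spec hex)]
      simp
    · simp only [htest, Nat.unpair_pair, Part.map_some, Part.mem_some_iff]
      rw [if_pos (not_not.1 (Nat.find_min hex hm))]
      simp
  refine ⟨fun _ => T (p k0), fun k => ?_, fun n => ?_⟩
  · change dist (N.u (T (p k0))) (f (M.u i)) ≤ _
    rw [← hk0s, hfu, dist_self]
    positivity
  · have h1 := Part.eq_some_iff.2 (hrf n)
    simp only [OCode.eval] at h1 ⊢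
    simp only [h1, Part.bind_some, hco, join_odd, hcT, ofn, Part.mem_some_iff]

end Pool.Agent.Helper339.TopCat
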